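import Mathlib

/-!
Definitions used in the hand-in statement: the proof system, the binary clique formula (helper1).
-/

set_option autoImplicit false
open scoped Classical

namespace CliqueLines

/-- The 0/1 assignments of the variables `X`, as vectors over the field with two elements. -/
abbrev Pt (X : Type) := X → ZMod 2

/-- The function `g` is a polynomial of degree at most `d` over the field with two elements. -/
def DegLE {X : Type} [Fintype X] (d : ℕ) (g : Pt X → ZMod 2) : Prop :=
  ∃ a : Finset X → ZMod 2, ∀ x, g x = ∑ T ∈ Finset.univ.filter (fun T : Finset X => T.card ≤ d),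
    a T * ∏ i ∈ T, x i

/-- A proof line: the disjunction of the polynomial equations `g = 0`, `g ∈ E`, of degree at most `e` (any number of
them) and of one polynomial equation `p = 0` of degree at most `t`. -/
structure Line (X : Type) [Fintype X] (e t : ℕ) where
  E : Set (Pt X → ZMod 2)
  hE : ∀ g ∈ E, DegLE e g
  p : Pt X → ZMod 2
  hp : DegLE t p

/-- The line is true at the assignment `x`. -/
def Line.Holds {X : Type} [Fintype X] {e t : ℕ} (l : Line X e t) (x : Pt X) : Prop :=
  (∃ g ∈ l.E, g x = 0) ∨ l.p x = 0

/-- The vertices: `k` parts with `2 ^ b` vertices each; the vertices of a part are named by `b` bits. -/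
abbrev Vertex (k b : ℕ) := Fin k × (Fin b → ZMod 2)

/-- The variables `(i, s)` (`s < b`) of the binary clique formula name a vertex of the part `i`; the assignment `x`
chooses the vertex `v` if they have the values `v.2`. -/
def Chooses {k b : ℕ} (x : Pt (Fin k × Fin b)) (v : Vertex k b) : Prop := ∀ s, x (v.1, s) = v.2 s

/-- The binary clique formula of `G` says that one vertex of every part is chosen and that the chosen vertices form a
clique. Its clauses say that `v` and `w` are not both chosen, for all non-adjacent vertices `v`, `w` of different parts.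
It has a refutation with `N` lines: every line is implied by a clause or by at most `f` earlier lines; the last line is
false everywhere. -/
def Refutes {k b : ℕ} (e t f : ℕ) (G : SimpleGraph (Vertex k b)) (N : ℕ) : Prop :=
  ∃ l : ℕ → Line (Fin k × Fin b) e t, 1 ≤ N ∧ (∀ x, ¬ (l (N - 1)).Holds x) ∧
    ∀ i < N, (∃ v w : Vertex k b, v.1 ≠ w.1 ∧ ¬ G.Adj v w ∧
        ∀ x, ¬ (Chooses x v ∧ Chooses x w) → (l i).Holds x) ∨
      ∃ J : Finset ℕ, J.card ≤ f ∧ (∀ j ∈ J, j < i) ∧ ∀ x, (∀ j ∈ J, (l j).Holds x) → (l i).Holds x

end CliqueLines
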