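import Pool.Agent.H62.PL.Defs
import Pool.Agent.H1.WC.Defs

/-!
# Degrees under substitution of variables or `0`
-/

set_option autoImplicit false
open scoped Classical

namespace H1WC

open Finset

/-- The substitution: the variable `i` gets the value of the variable `τ i`, or `0`. -/
def sb {X : Type} {n : ℕ} (τ : X → Option (Fin n)) (x : PolyLines.Pt n) : CliqueLines.Pt X :=
  fun i => (τ i).elim 0 x

theorem Deg_mono {n d : ℕ} (T : Finset (Fin n)) (hT : T.card ≤ d) :
    PolyLines.DegLE d (fun x => ∏ i ∈ T, x i) := by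
  refine ⟨fun S => if S = T then 1 else 0, fun x => ?_⟩
  rw [Finset.sum_eq_single T]
  · simp
  · intro S _ hS
    show (if S = T then (1 : ZMod 2) else 0) * _ = 0
    rw [if_neg hS, zero_mul]
  · intro h
    exact absurd ((Finset.mem_filter (p := fun T : Finset (Fin n) => T.card ≤ d)).2 ⟨Finset.mem_univ T, hT⟩) h

theorem Deg_zero {n d : ℕ} : PolyLines.DegLE (n := n) d (fun _ => 0) :=
  ⟨fun _ => 0, fun x => by simp⟩

theorem Deg_add {n d : ℕ} {g h : PolyLines.Pt n → ZMod 2} (hg : PolyLines.DegLE d g) (hh : PolyLines.DegLE d h) :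
    PolyLines.DegLE d (fun x => g x + h x) := by
  obtain ⟨a, ha⟩ := hg
  obtain ⟨b, hb⟩ := hh
  refine ⟨fun T => a T + b T, fun x => ?_⟩
  show g x + h x = _
  rw [ha, hb, ← Finset.sum_add_distrib]
  refine Finset.sum_congr rfl fun T _ => ?_
  ring

theorem Deg_smul {n d : ℕ} (c : ZMod 2) {g : PolyLines.Pt n → ZMod 2} (hg : PolyLines.DegLE d g) :
    PolyLines.DegLE d (fun x => c * g x) := by
  obtain ⟨a, ha⟩ := hg
  refine ⟨fun T => c * a T, fun x => ?_⟩
  show c * g x = _
  rw [ha, Finset.mul_sum]
  refine Finset.sum_congr rfl fun T _ => ?_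
  ring

theorem Deg_sum {n d : ℕ} {ι : Type} (s : Finset ι) (g : ι → PolyLines.Pt n → ZMod 2)
    (hg : ∀ i ∈ s, PolyLines.DegLE d (g i)) : PolyLines.DegLE d (fun x => ∑ i ∈ s, g i x) := by
  induction s using Finset.induction_on with
  | empty => simpa using Deg_zero
  | insert i s hi ih =>
    have h1 := Deg_add (hg i (Finset.mem_insert_self _ _))
      (ih fun j hj => hg j (Finset.mem_insert_of_mem hj))
    have h2 : (fun x => ∑ j ∈ insert i s, g j x) = fun x => g i x + ∑ j ∈ s, g j x := by
      funext x
      rw [Finset.sum_insert hi]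
    rw [h2]
    exact h1

/-- A product of variables (with repetitions) is a monomial. -/
theorem Deg_prod {X : Type} {n : ℕ} (T : Finset X) (v : X → Fin n) (x : PolyLines.Pt n) :
    ∏ i ∈ T, x (v i) = ∏ j ∈ T.image v, x j := by
  induction T using Finset.induction_on with
  | empty => simp
  | insert i T hi ih =>
    rw [Finset.prod_insert hi, Finset.image_insert, ih]
    by_cases h : v i ∈ T.image v
    · rw [Finset.insert_eq_of_mem h, ← Finset.mul_prod_erase _ _ h, ← mul_assoc]
      have : ∀ a : ZMod 2, a * a = a := by decide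
      rw [this]
    · rw [Finset.prod_insert h]

theorem DegLE_sb {X : Type} [Fintype X] {n d : ℕ} (τ : X → Option (Fin n)) (g : CliqueLines.Pt X → ZMod 2)
    (hg : CliqueLines.DegLE d g) : PolyLines.DegLE d (fun x => g (sb τ x)) := by
  obtain ⟨a, ha⟩ := hg
  have h1 : (fun x => g (sb τ x)) = fun x => ∑ T ∈ univ.filter (fun T : Finset X => T.card ≤ d),
      a T * ∏ i ∈ T, sb τ x i := by
    funext x
    exact ha _
  rw [h1]
  apply Deg_sum
  intro T hT
  have hTd := (Finset.mem_filter.1 hT).2
  apply Deg_smul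
  by_cases h : ∀ i ∈ T, (τ i).isSome = true
  · rcases isEmpty_or_nonempty (Fin n) with hE | ⟨⟨v0⟩⟩
    · have hT0 : T = ∅ := by
        apply Finset.eq_empty_of_forall_notMem
        intro i hi
        obtain ⟨v, _⟩ := Option.isSome_iff_exists.1 (h i hi)
        exact hE.elim v
      subst hT0
      have h2 := Deg_mono (n := n) (d := d) ∅ (by simp)
      simpa using h2
    · have h2 : (fun x : PolyLines.Pt n => ∏ i ∈ T, sb τ x i) =
          fun x => ∏ j ∈ T.image (fun i => (τ i).getD v0), x j := by
        funext x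
        rw [← Deg_prod]
        refine Finset.prod_congr rfl fun i hi => ?_
        obtain ⟨v, hv⟩ := Option.isSome_iff_exists.1 (h i hi)
        simp [sb, hv]
      rw [h2]
      exact Deg_mono _ (le_trans Finset.card_image_le hTd)
  · push Not at h
    obtain ⟨i, hi, hn⟩ := h
    have hn' : τ i = none := by
      cases hτ : τ i with
      | none => rfl
      | some v => exact absurd (by rw [hτ]; rfl) hn
    have h2 : (fun x : PolyLines.Pt n => ∏ i ∈ T, sb τ x i) = fun _ => 0 := by
      funext x
      apply Finset.prod_eq_zero hi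
      simp [sb, hn']
    rw [h2]
    exact Deg_zero

end H1WC
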