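import Mathlib

/-!
# Moment bound for random functions
`#{g : Fin M → Ω : #{j : P (g j)} ≥ s} * 2 ^ s ≤ (#Ω + #P) ^ M`, as `∑_g 2 ^ #{j : P (g j)} = (∑_ω (if P ω then 2 else 1)) ^ M`.
-/

set_option autoImplicit false

namespace H1WC

open Finset

theorem moment {Ω : Type} [Fintype Ω] (M s : ℕ) (P : Ω → Prop) [DecidablePred P] :
    (univ.filter (fun g : Fin M → Ω => s ≤ (univ.filter (fun j => P (g j))).card)).card * 2 ^ s ≤
      (Fintype.card Ω + (univ.filter P).card) ^ M := by
  have h1 : (Fintype.card Ω + (univ.filter P).card) ^ M =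
      ∑ g : Fin M → Ω, 2 ^ (univ.filter (fun j => P (g j))).card := by
    have h2 : ∑ ω : Ω, (if P ω then 2 else 1) = Fintype.card Ω + (univ.filter P).card := by
      have h3 : ∀ ω : Ω, (if P ω then 2 else 1) = 1 + (if P ω then 1 else 0) := by
        intro ω
        split_ifs <;> rfl
      rw [Finset.sum_congr rfl (fun ω _ => h3 ω), Finset.sum_add_distrib, ← Finset.card_filter]
      simp
    have h4 : ∏ _j : Fin M, ∑ ω : Ω, (if P ω then 2 else 1) =
        ∑ g ∈ Fintype.piFinset (fun _ : Fin M => (univ : Finset Ω)), ∏ j, (if P (g j) then 2 else 1) :=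
      Finset.prod_univ_sum (fun _ : Fin M => (univ : Finset Ω)) (fun _ ω => if P ω then 2 else 1)
    rw [Finset.prod_const, Finset.card_univ, Fintype.card_fin, h2, Fintype.piFinset_univ] at h4
    rw [h4]
    refine Finset.sum_congr rfl fun g _ => ?_
    rw [Finset.prod_ite, Finset.prod_const, Finset.prod_const_one, mul_one]
  rw [h1, Finset.card_eq_sum_ones, Finset.sum_mul, one_mul]
  refine le_trans (Finset.sum_le_sum (f := fun _ => 2 ^ s)
    (g := fun g : Fin M → Ω => 2 ^ (univ.filter (fun j => P (g j))).card) ?_) ?_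
  · intro g hg
    exact Nat.pow_le_pow_right (by norm_num) (Finset.mem_filter.1 hg).2
  · exact Finset.sum_le_sum_of_subset (Finset.filter_subset _ _)

end H1WC
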