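import Pool.Agent.H1.WC.Mo

/-!
# Random groups
Every `j : Fin M` gets a random vector `g j : Fin k → Fin t`; `T i = {j : g j i = 0}`.
-/

set_option autoImplicit false
open scoped Classical

namespace H1WC

open Finset

theorem Gr_card_ne (t : ℕ) : (univ.filter (fun a : Fin t => (a : ℕ) ≠ 0)).card = t - 1 := by
  rcases Nat.eq_zero_or_pos t with rfl | ht
  · rfl
  · have h1 : (univ.filter (fun a : Fin t => (a : ℕ) ≠ 0)) = univ.erase (⟨0, ht⟩ : Fin t) := by
      ext a
      simp [Fin.ext_iff]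
    rw [h1, Finset.card_erase_of_mem (Finset.mem_univ _), Finset.card_univ, Fintype.card_fin]

theorem Gr_card_eq (t : ℕ) (ht : 1 ≤ t) : (univ.filter (fun a : Fin t => (a : ℕ) = 0)).card = 1 := by
  have h1 : (univ.filter (fun a : Fin t => (a : ℕ) = 0)) = {(⟨0, ht⟩ : Fin t)} := by
    ext a
    simp [Fin.ext_iff]
  rw [h1, Finset.card_singleton]

theorem Gr_avoid {k t : ℕ} (L : Finset (Fin k)) :
    (univ.filter (fun ω : Fin k → Fin t => ∀ i ∈ L, (ω i : ℕ) ≠ 0)).card =
      (t - 1) ^ L.card * t ^ (k - L.card) := by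
  have h1 : (univ.filter (fun ω : Fin k → Fin t => ∀ i ∈ L, (ω i : ℕ) ≠ 0)) =
      Fintype.piFinset (fun i => if i ∈ L then univ.filter (fun a : Fin t => (a : ℕ) ≠ 0) else univ) := by
    ext ω
    rw [Finset.mem_filter, Fintype.mem_piFinset]
    constructor
    · rintro ⟨_, h⟩ i
      by_cases hi : i ∈ L
      · rw [if_pos hi, Finset.mem_filter]
        exact ⟨Finset.mem_univ _, h i hi⟩
      · rw [if_neg hi]
        exact Finset.mem_univ _
    · intro h
      refine ⟨Finset.mem_univ _, fun i hi => ?_⟩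
      have h2 := h i
      rw [if_pos hi, Finset.mem_filter] at h2
      exact h2.2
  rw [h1, Fintype.card_piFinset]
  have h2 : ∀ i : Fin k, (if i ∈ L then univ.filter (fun a : Fin t => (a : ℕ) ≠ 0) else univ).card =
      if i ∈ L then t - 1 else t := by
    intro i
    split_ifs
    · exact Gr_card_ne t
    · rw [Finset.card_univ, Fintype.card_fin]
  rw [Finset.prod_congr rfl (fun i _ => h2 i), Finset.prod_ite, Finset.prod_const, Finset.prod_const]
  congr 2
  · rw [Finset.filter_mem_eq_inter, Finset.univ_inter]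
  · have h3 : (univ.filter (fun i : Fin k => i ∉ L)) = Lᶜ := by
      ext i
      simp
    rw [h3, Finset.card_compl, Fintype.card_fin]

theorem Gr_zero {k t : ℕ} (ht : 1 ≤ t) (i : Fin k) :
    (univ.filter (fun ω : Fin k → Fin t => (ω i : ℕ) = 0)).card * t = t ^ k := by
  have h1 : (univ.filter (fun ω : Fin k → Fin t => (ω i : ℕ) = 0)) =
      Fintype.piFinset (fun j => if j = i then univ.filter (fun a : Fin t => (a : ℕ) = 0) else univ) := by
    ext ω
    rw [Finset.mem_filter, Fintype.mem_piFinset]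
    constructor
    · rintro ⟨_, h⟩ j
      by_cases hj : j = i
      · subst hj
        rw [if_pos rfl, Finset.mem_filter]
        exact ⟨Finset.mem_univ _, h⟩
      · rw [if_neg hj]
        exact Finset.mem_univ _
    · intro h
      have h2 := h i
      rw [if_pos rfl, Finset.mem_filter] at h2
      exact ⟨Finset.mem_univ _, h2.2⟩
  have h2 : ∀ j : Fin k, (if j = i then univ.filter (fun a : Fin t => (a : ℕ) = 0) else univ).card =
      if j = i then 1 else t := by
    intro j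
    split_ifs
    · exact Gr_card_eq t ht
    · rw [Finset.card_univ, Fintype.card_fin]
  rw [h1, Fintype.card_piFinset, Finset.prod_congr rfl (fun j _ => h2 j), Finset.prod_ite, Finset.prod_const_one,
    one_mul, Finset.prod_const]
  have h3 : (univ.filter (fun j : Fin k => ¬ j = i)) = univ.erase i := by
    ext j
    simp
  rw [h3, Finset.card_erase_of_mem (Finset.mem_univ _), Finset.card_univ, Fintype.card_fin, ← pow_succ]
  congr 1
  have := i.2
  omega

/-- The fraction of the bad functions of the first kind. -/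
theorem Gr_bad1 {k M t : ℕ} (ht : 1 ≤ t) (hM : 1 ≤ M) (hk : 1 ≤ k) (h2 : (2 * k) ^ t ≤ 2 ^ M) (i : Fin k) :
    (2 * k * (univ.filter (fun g : Fin M → (Fin k → Fin t) =>
      3 * M < t * (univ.filter (fun j => (g j i : ℕ) = 0)).card)).card : ℝ) < ((t : ℝ) ^ k) ^ M := by
  have htr : (0 : ℝ) < t := by exact_mod_cast ht
  have hmom := moment M (3 * M / t + 1) (fun ω : Fin k → Fin t => (ω i : ℕ) = 0)
  have hsub : (univ.filter (fun g : Fin M → (Fin k → Fin t) =>
      3 * M < t * (univ.filter (fun j => (g j i : ℕ) = 0)).card)) ⊆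
      (univ.filter (fun g : Fin M → (Fin k → Fin t) =>
        3 * M / t + 1 ≤ (univ.filter (fun j => (g j i : ℕ) = 0)).card)) := by
    intro g hg
    rw [Finset.mem_filter] at hg ⊢
    refine ⟨hg.1, ?_⟩
    have := hg.2
    exact (Nat.div_lt_iff_lt_mul (by omega)).2 (by rw [mul_comm _ t]; exact this)
  have hc1 := Finset.card_le_card hsub
  set B := (univ.filter (fun g : Fin M → (Fin k → Fin t) =>
      3 * M < t * (univ.filter (fun j => (g j i : ℕ) = 0)).card)).card with hB
  have hz := Gr_zero ht i (k := k) (t := t)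
  set Z := (univ.filter (fun ω : Fin k → Fin t => (ω i : ℕ) = 0)).card with hZ
  have hΩ : Fintype.card (Fin k → Fin t) = t ^ k := by
    rw [Fintype.card_fun, Fintype.card_fin, Fintype.card_fin]
  rw [hΩ] at hmom
  have hmr : (B : ℝ) * 2 ^ (3 * M / t + 1) ≤ ((t : ℝ) ^ k + Z) ^ M := by
    have h3 : B * 2 ^ (3 * M / t + 1) ≤ (t ^ k + Z) ^ M :=
      le_trans (Nat.mul_le_mul_right _ hc1) hmom
    exact_mod_cast h3
  have hZr : (Z : ℝ) = (t : ℝ) ^ k * (1 / t) := by
    have : (Z : ℝ) * t = (t : ℝ) ^ k := by exact_mod_cast hz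
    rw [mul_one_div, eq_div_iff htr.ne']
    exact this
  have htk : (0 : ℝ) < (t : ℝ) ^ k := by positivity
  -- set r = M / t
  set r : ℝ := (M : ℝ) / t with hr
  have hr0 : 0 < r := by
    have : (0 : ℝ) < M := by exact_mod_cast hM
    positivity
  have e1 : ((t : ℝ) ^ k + Z) ^ M ≤ ((t : ℝ) ^ k) ^ M * Real.exp r := by
    rw [hZr]
    have : (t : ℝ) ^ k + (t : ℝ) ^ k * (1 / t) = (t : ℝ) ^ k * (1 + 1 / t) := by ring
    rw [this, mul_pow]
    refine mul_le_mul_of_nonneg_left ?_ (by positivity)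
    have h5 : (1 : ℝ) + 1 / t ≤ Real.exp (1 / t) := by
      have := Real.add_one_le_exp (1 / (t : ℝ))
      linarith
    calc ((1 : ℝ) + 1 / t) ^ M ≤ (Real.exp (1 / t)) ^ M := pow_le_pow_left₀ (by positivity) h5 M
      _ = Real.exp r := by
        rw [← Real.exp_nat_mul, hr]
        congr 1
        ring
  have e2 : (2 : ℝ) ^ (3 * r) ≤ 2 ^ (3 * M / t + 1) := by
    rw [← Real.rpow_natCast]
    refine Real.rpow_le_rpow_of_exponent_le (by norm_num) ?_
    have h6 : (3 * M : ℕ) < t * (3 * M / t + 1) := by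
      have := Nat.lt_mul_div_succ (3 * M) (show 0 < t by omega)
      exact this
    have h7 : (3 * M : ℝ) < t * ((3 * M / t + 1 : ℕ) : ℝ) := by exact_mod_cast h6
    rw [hr]
    rw [← mul_div_assoc, div_le_iff₀ htr]
    linarith [mul_comm (t : ℝ) ((3 * M / t + 1 : ℕ) : ℝ)]
  have e3 : (2 * k : ℝ) ≤ 2 ^ r := by
    have h8 : ((2 * k : ℝ)) ^ t ≤ 2 ^ M := by exact_mod_cast h2
    have h9 : (2 * k : ℝ) = (((2 * k : ℝ)) ^ t) ^ ((1 : ℝ) / t) := by
      rw [← Real.rpow_natCast, ← Real.rpow_mul (by positivity), mul_one_div, div_self htr.ne', Real.rpow_one]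
    rw [h9]
    calc (((2 * k : ℝ)) ^ t) ^ ((1 : ℝ) / t) ≤ ((2 : ℝ) ^ M) ^ ((1 : ℝ) / t) :=
          Real.rpow_le_rpow (by positivity) h8 (by positivity)
      _ = 2 ^ r := by
        rw [← Real.rpow_natCast, ← Real.rpow_mul (by norm_num), hr]
        congr 1
        ring
  have e4 : Real.exp r < 2 ^ (2 * r) := by
    rw [Real.rpow_mul (by norm_num), Real.rpow_two]
    have : Real.exp r = (Real.exp 1) ^ r := by
      rw [← Real.exp_mul, one_mul]
    rw [this]
    refine Real.rpow_lt_rpow (Real.exp_pos _).le ?_ hr0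
    have := Real.exp_one_lt_d9
    norm_num
    linarith
  have e5 : (2 : ℝ) ^ (3 * r) = 2 ^ r * 2 ^ (2 * r) := by
    rw [← Real.rpow_add (by norm_num)]
    congr 1
    ring
  have hB0 : (0 : ℝ) ≤ B := by positivity
  -- conclude
  have h10 : (B : ℝ) * 2 ^ (3 * r) ≤ ((t : ℝ) ^ k) ^ M * Real.exp r :=
    le_trans (mul_le_mul_of_nonneg_left e2 hB0) (le_trans hmr e1)
  have hpos : (0 : ℝ) < ((t : ℝ) ^ k) ^ M := by positivity
  rw [e5] at h10
  have h11 : (B : ℝ) * 2 ^ r < ((t : ℝ) ^ k) ^ M := by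
    by_contra hcon
    push Not at hcon
    have h12 : ((t : ℝ) ^ k) ^ M * 2 ^ (2 * r) ≤ (B : ℝ) * 2 ^ r * 2 ^ (2 * r) :=
      mul_le_mul_of_nonneg_right hcon (by positivity)
    have h13 : ((t : ℝ) ^ k) ^ M * Real.exp r < ((t : ℝ) ^ k) ^ M * 2 ^ (2 * r) :=
      mul_lt_mul_of_pos_left e4 hpos
    have h14 : (B : ℝ) * (2 ^ r * 2 ^ (2 * r)) = (B : ℝ) * 2 ^ r * 2 ^ (2 * r) := by ring
    linarith
  calc (2 * k * B : ℝ) = B * (2 * k) := by ring
    _ ≤ B * 2 ^ r := mul_le_mul_of_nonneg_left e3 hB0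
    _ < _ := h11

/-- The fraction of the bad functions of the second kind. -/
theorem Gr_bad2 {K k l M t : ℕ} (ht : 1 ≤ t) (hl : (K + 2) * t ≤ l) (h1 : 2 ^ (K + 1) * (k + 1) ≤ M)
    (L : Finset (Fin k)) (hL : L.card = l) :
    (2 * 2 ^ k * (univ.filter (fun g : Fin M → (Fin k → Fin t) =>
      M < 2 ^ K * (univ.filter (fun j => ∀ i ∈ L, (g j i : ℕ) ≠ 0)).card)).card : ℝ) < ((t : ℝ) ^ k) ^ M := by
  have htr : (0 : ℝ) < t := by exact_mod_cast ht
  have hlk : l ≤ k := by
    rw [← hL]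
    calc L.card ≤ (univ : Finset (Fin k)).card := Finset.card_le_univ L
      _ = k := by rw [Finset.card_univ, Fintype.card_fin]
  have hmom := moment M (M / 2 ^ K + 1) (fun ω : Fin k → Fin t => ∀ i ∈ L, (ω i : ℕ) ≠ 0)
  have h2K : 0 < 2 ^ K := by positivity
  have hsub : (univ.filter (fun g : Fin M → (Fin k → Fin t) =>
      M < 2 ^ K * (univ.filter (fun j => ∀ i ∈ L, (g j i : ℕ) ≠ 0)).card)) ⊆
      (univ.filter (fun g : Fin M → (Fin k → Fin t) =>
        M / 2 ^ K + 1 ≤ (univ.filter (fun j => ∀ i ∈ L, (g j i : ℕ) ≠ 0)).card)) := by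
    intro g hg
    rw [Finset.mem_filter] at hg ⊢
    refine ⟨hg.1, ?_⟩
    have := hg.2
    exact (Nat.div_lt_iff_lt_mul h2K).2 (by rw [mul_comm _ (2 ^ K)]; exact this)
  have hc1 := Finset.card_le_card hsub
  set B := (univ.filter (fun g : Fin M → (Fin k → Fin t) =>
      M < 2 ^ K * (univ.filter (fun j => ∀ i ∈ L, (g j i : ℕ) ≠ 0)).card)).card with hB
  have hz := Gr_avoid (t := t) L
  set Z := (univ.filter (fun ω : Fin k → Fin t => ∀ i ∈ L, (ω i : ℕ) ≠ 0)).card with hZ
  have hΩ : Fintype.card (Fin k → Fin t) = t ^ k := by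
    rw [Fintype.card_fun, Fintype.card_fin, Fintype.card_fin]
  rw [hΩ] at hmom
  have hmr : (B : ℝ) * 2 ^ (M / 2 ^ K + 1) ≤ ((t : ℝ) ^ k + Z) ^ M := by
    have h3 : B * 2 ^ (M / 2 ^ K + 1) ≤ (t ^ k + Z) ^ M :=
      le_trans (Nat.mul_le_mul_right _ hc1) hmom
    exact_mod_cast h3
  have htk : (0 : ℝ) < (t : ℝ) ^ k := by positivity
  have hZr : (Z : ℝ) ≤ (t : ℝ) ^ k * Real.exp (-(K + 2)) := by
    rw [hz, hL]
    push_cast [Nat.cast_sub ht]
    have h4 : (t : ℝ) ^ k = (t : ℝ) ^ l * (t : ℝ) ^ (k - l) := by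
      rw [← pow_add]
      congr 1
      omega
    rw [h4]
    have h5 : ((t : ℝ) - 1) ^ l ≤ (t : ℝ) ^ l * Real.exp (-(K + 2)) := by
      have h6 : (t : ℝ) - 1 = t * (1 - 1 / t) := by
        field_simp
      rw [h6, mul_pow]
      refine mul_le_mul_of_nonneg_left ?_ (by positivity)
      have h7 : 0 ≤ 1 - 1 / (t : ℝ) := by
        have : 1 / (t : ℝ) ≤ 1 := by
          rw [div_le_one htr]
          exact_mod_cast ht
        linarith
      calc (1 - 1 / (t : ℝ)) ^ l ≤ (Real.exp (-(1 / t))) ^ l :=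
            pow_le_pow_left₀ h7 (Real.one_sub_le_exp_neg _) l
        _ = Real.exp ((l : ℝ) * (-(1 / t))) := (Real.exp_nat_mul _ _).symm
        _ ≤ Real.exp (-(K + 2)) := by
          apply Real.exp_le_exp.2
          have h8 : ((K : ℝ) + 2) * t ≤ l := by exact_mod_cast hl
          have h9 : (K : ℝ) + 2 ≤ l / t := by
            rw [le_div_iff₀ htr]
            exact h8
          have : (l : ℝ) * (-(1 / t)) = -(l / t) := by ring
          rw [this]
          linarith
    calc ((t : ℝ) - 1) ^ l * (t : ℝ) ^ (k - l) ≤ (t : ℝ) ^ l * Real.exp (-(K + 2)) * (t : ℝ) ^ (k - l) :=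
          mul_le_mul_of_nonneg_right h5 (by positivity)
      _ = _ := by ring
  have hexp : Real.exp (-((K : ℝ) + 2)) ≤ 0.14 * (1 / 2 ^ K) := by
    have h10 : Real.exp (-((K : ℝ) + 2)) = Real.exp (-2) * (Real.exp (-1)) ^ K := by
      rw [← Real.exp_nat_mul, ← Real.exp_add]
      congr 1
      ring
    have h11 : Real.exp (-1) ≤ 1 / 2 := by
      rw [Real.exp_neg]
      have := Real.exp_one_gt_d9
      rw [inv_le_comm₀ (Real.exp_pos _) (by norm_num)]
      norm_num
      linarith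
    have h12 : Real.exp (-2) ≤ 0.14 := by
      have h13 : Real.exp (-2) = (Real.exp 1)⁻¹ ^ 2 := by
        rw [← Real.exp_neg, ← Real.exp_nat_mul]
        norm_num
      rw [h13]
      have h14 := Real.exp_one_gt_d9
      have h15 : (Real.exp 1)⁻¹ ≤ 0.37 := by
        rw [inv_le_comm₀ (Real.exp_pos _) (by norm_num)]
        norm_num
        linarith
      have h16 : 0 ≤ (Real.exp 1)⁻¹ := by positivity
      nlinarith
    rw [h10]
    have h17 : (Real.exp (-1)) ^ K ≤ 1 / 2 ^ K := by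
      calc (Real.exp (-1)) ^ K ≤ (1 / 2 : ℝ) ^ K := pow_le_pow_left₀ (Real.exp_pos _).le h11 K
        _ = 1 / 2 ^ K := by rw [one_div, one_div, inv_pow]
    exact mul_le_mul h12 h17 (by positivity) (by norm_num)
  set u : ℝ := (M : ℝ) / 2 ^ K with hu
  have hu1 : (2 * (k + 1) : ℝ) ≤ u := by
    rw [hu, le_div_iff₀ (by positivity)]
    have : ((2 : ℝ) ^ (K + 1) * (k + 1)) ≤ M := by exact_mod_cast h1
    rw [pow_succ] at this
    linarith
  have e1 : ((t : ℝ) ^ k + Z) ^ M ≤ ((t : ℝ) ^ k) ^ M * Real.exp (0.14 * u) := by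
    have h20 : (t : ℝ) ^ k + Z ≤ (t : ℝ) ^ k * (1 + 0.14 * (1 / 2 ^ K)) := by
      have := mul_le_mul_of_nonneg_left hexp htk.le
      linarith
    calc ((t : ℝ) ^ k + Z) ^ M ≤ ((t : ℝ) ^ k * (1 + 0.14 * (1 / 2 ^ K))) ^ M :=
          pow_le_pow_left₀ (by positivity) h20 M
      _ = ((t : ℝ) ^ k) ^ M * (1 + 0.14 * (1 / 2 ^ K)) ^ M := mul_pow _ _ _
      _ ≤ ((t : ℝ) ^ k) ^ M * Real.exp (0.14 * u) := by
        refine mul_le_mul_of_nonneg_left ?_ (by positivity)
        have h21 : (1 : ℝ) + 0.14 * (1 / 2 ^ K) ≤ Real.exp (0.14 * (1 / 2 ^ K)) := by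
          have := Real.add_one_le_exp (0.14 * (1 / (2 : ℝ) ^ K))
          linarith
        calc ((1 : ℝ) + 0.14 * (1 / 2 ^ K)) ^ M ≤ (Real.exp (0.14 * (1 / 2 ^ K))) ^ M :=
              pow_le_pow_left₀ (by positivity) h21 M
          _ = Real.exp (0.14 * u) := by
            rw [← Real.exp_nat_mul, hu]
            congr 1
            ring
  have e2 : Real.exp (0.69 * u) ≤ 2 ^ (M / 2 ^ K + 1) := by
    have h22 : Real.exp (0.69 * u) ≤ Real.exp (Real.log 2 * ((M / 2 ^ K + 1 : ℕ) : ℝ)) := by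
      apply Real.exp_le_exp.2
      have h23 : u ≤ ((M / 2 ^ K + 1 : ℕ) : ℝ) := by
        rw [hu, div_le_iff₀ (by positivity)]
        have h24 : M < 2 ^ K * (M / 2 ^ K + 1) := Nat.lt_mul_div_succ M h2K
        have h25 : (M : ℝ) < 2 ^ K * ((M / 2 ^ K + 1 : ℕ) : ℝ) := by exact_mod_cast h24
        linarith [mul_comm ((2 : ℝ) ^ K) ((M / 2 ^ K + 1 : ℕ) : ℝ)]
      have h26 := Real.log_two_gt_d9
      have hu0 : 0 ≤ u := by positivity
      nlinarith
    refine le_trans h22 (le_of_eq ?_)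
    rw [Real.exp_mul, Real.exp_log (by norm_num), Real.rpow_natCast]
  have e3 : (2 * 2 ^ k : ℝ) < Real.exp (0.55 * u) := by
    have h27 : (2 * 2 ^ k : ℝ) = Real.exp (Real.log 2 * ((k + 1 : ℕ) : ℝ)) := by
      rw [Real.exp_mul, Real.exp_log (by norm_num), Real.rpow_natCast, pow_succ]
      ring
    rw [h27]
    apply Real.exp_lt_exp.2
    have h28 := Real.log_two_lt_d9
    push_cast
    have hk0 : (0 : ℝ) ≤ k := by positivity
    nlinarith
  have hB0 : (0 : ℝ) ≤ B := by positivity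
  have hpos : (0 : ℝ) < ((t : ℝ) ^ k) ^ M := by positivity
  have h30 : (B : ℝ) * Real.exp (0.69 * u) ≤ ((t : ℝ) ^ k) ^ M * Real.exp (0.14 * u) :=
    le_trans (mul_le_mul_of_nonneg_left e2 hB0) (le_trans hmr e1)
  have h31 : Real.exp (0.69 * u) = Real.exp (0.55 * u) * Real.exp (0.14 * u) := by
    rw [← Real.exp_add]
    congr 1
    ring
  rw [h31, ← mul_assoc] at h30
  have h32 : (B : ℝ) * Real.exp (0.55 * u) ≤ ((t : ℝ) ^ k) ^ M :=
    le_of_mul_le_mul_right h30 (Real.exp_pos _)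
  rcases hB0.lt_or_eq with hBp | hBz
  · calc (2 * 2 ^ k * B : ℝ) = B * (2 * 2 ^ k) := by ring
      _ < B * Real.exp (0.55 * u) := mul_lt_mul_of_pos_left e3 hBp
      _ ≤ _ := h32
  · rw [← hBz, mul_zero]
    exact hpos

theorem groups {K k l M t : ℕ} (hl1 : 1 ≤ l) (ht : 1 ≤ t) (hl : t = 1 ∨ (K + 2) * t ≤ l)
    (h1 : 2 ^ (K + 1) * (k + 1) ≤ M) (h2 : (2 * k) ^ t ≤ 2 ^ M) :
    ∃ T : Fin k → Finset (Fin M), (∀ i, t * (T i).card ≤ 3 * M) ∧
      ∀ L : Finset (Fin k), l ≤ L.card → 2 ^ K * (univ.filter (fun j => ∀ i ∈ L, j ∉ T i)).card ≤ M := by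
  rcases hl with rfl | hl
  · refine ⟨fun _ => univ, fun i => ?_, fun L hL => ?_⟩
    · rw [Finset.card_univ, Fintype.card_fin]
      omega
    · obtain ⟨i, hi⟩ := Finset.card_pos.1 (lt_of_lt_of_le hl1 hL)
      have : (univ.filter (fun j : Fin M => ∀ i ∈ L, j ∉ (univ : Finset (Fin M)))) = ∅ := by
        apply Finset.filter_false_of_mem
        intro j _ h
        exact h i hi (Finset.mem_univ _)
      rw [this, Finset.card_empty, mul_zero]
      exact Nat.zero_le _
  · rcases Nat.eq_zero_or_pos k with hk | hk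
    · subst hk
      refine ⟨fun _ => univ, fun i => i.elim0, fun L hL => ?_⟩
      have h3 : L.card ≤ 0 := by
        calc L.card ≤ (univ : Finset (Fin 0)).card := Finset.card_le_univ L
          _ = 0 := by rw [Finset.card_univ, Fintype.card_fin]
      omega
    · have hM : 1 ≤ M := le_trans (Nat.succ_le_of_lt (by positivity)) h1
      let A1 : Fin k → Finset (Fin M → (Fin k → Fin t)) := fun i => univ.filter (fun g =>
        3 * M < t * (univ.filter (fun j => (g j i : ℕ) = 0)).card)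
      let A2 : Finset (Fin k) → Finset (Fin M → (Fin k → Fin t)) := fun L => univ.filter (fun g =>
        M < 2 ^ K * (univ.filter (fun j => ∀ i ∈ L, (g j i : ℕ) ≠ 0)).card)
      let Ls : Finset (Finset (Fin k)) := univ.filter (fun L => L.card = l)
      have htk : (0 : ℝ) < ((t : ℝ) ^ k) ^ M := by
        have : (0 : ℝ) < t := by exact_mod_cast ht
        positivity
      have b1 : ((univ.biUnion A1).card : ℝ) < ((t : ℝ) ^ k) ^ M / 2 := by
        have h3 : ((univ.biUnion A1).card : ℝ) ≤ ∑ i, ((A1 i).card : ℝ) := by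
          exact_mod_cast Finset.card_biUnion_le
        have hkr : (0 : ℝ) < k := by exact_mod_cast hk
        have h4 : ∑ i, ((A1 i).card : ℝ) < ∑ _i : Fin k, ((t : ℝ) ^ k) ^ M / (2 * k) := by
          apply Finset.sum_lt_sum_of_nonempty
          · exact ⟨⟨0, hk⟩, Finset.mem_univ _⟩
          · intro i _
            rw [lt_div_iff₀ (by positivity), mul_comm]
            exact Gr_bad1 ht hM hk h2 i
        have h5 : ∑ _i : Fin k, ((t : ℝ) ^ k) ^ M / (2 * k) = ((t : ℝ) ^ k) ^ M / 2 := by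
          rw [Finset.sum_const, Finset.card_univ, Fintype.card_fin, nsmul_eq_mul]
          field_simp
        linarith
      have b2 : ((Ls.biUnion A2).card : ℝ) ≤ ((t : ℝ) ^ k) ^ M / 2 := by
        have h3 : ((Ls.biUnion A2).card : ℝ) ≤ ∑ L ∈ Ls, ((A2 L).card : ℝ) := by
          exact_mod_cast Finset.card_biUnion_le
        have h4 : ∑ L ∈ Ls, ((A2 L).card : ℝ) ≤ ∑ _L ∈ Ls, ((t : ℝ) ^ k) ^ M / (2 * 2 ^ k) := by
          apply Finset.sum_le_sum
          intro L hL
          rw [le_div_iff₀ (by positivity), mul_comm]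
          exact (Gr_bad2 ht hl h1 L (Finset.mem_filter.1 hL).2).le
        have h5 : ∑ _L ∈ Ls, ((t : ℝ) ^ k) ^ M / (2 * 2 ^ k) ≤ ((t : ℝ) ^ k) ^ M / 2 := by
          rw [Finset.sum_const, nsmul_eq_mul]
          have h6 : (Ls.card : ℝ) ≤ 2 ^ k := by
            have h7 : Ls.card ≤ 2 ^ k := by
              calc Ls.card ≤ (univ : Finset (Finset (Fin k))).card := Finset.card_le_univ _
                _ = 2 ^ k := by rw [Finset.card_univ, Fintype.card_finset, Fintype.card_fin]
            exact_mod_cast h7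
          calc (Ls.card : ℝ) * (((t : ℝ) ^ k) ^ M / (2 * 2 ^ k)) ≤
                2 ^ k * (((t : ℝ) ^ k) ^ M / (2 * 2 ^ k)) := mul_le_mul_of_nonneg_right h6 (by positivity)
            _ = ((t : ℝ) ^ k) ^ M / 2 := by
              field_simp
        linarith
      have hex : ∃ g : Fin M → (Fin k → Fin t), g ∉ univ.biUnion A1 ∧ g ∉ Ls.biUnion A2 := by
        by_contra hcon
        push Not at hcon
        have h3 : (univ : Finset (Fin M → (Fin k → Fin t))) ⊆ univ.biUnion A1 ∪ Ls.biUnion A2 := by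
          intro g _
          rw [Finset.mem_union]
          by_cases hg : g ∈ univ.biUnion A1
          · exact Or.inl hg
          · exact Or.inr (hcon g hg)
        have h4 := le_trans (Finset.card_le_card h3) (Finset.card_union_le _ _)
        rw [Finset.card_univ, Fintype.card_fun, Fintype.card_fun, Fintype.card_fin, Fintype.card_fin,
          Fintype.card_fin] at h4
        have h5 : ((t : ℝ) ^ k) ^ M ≤ ((univ.biUnion A1).card : ℝ) + ((Ls.biUnion A2).card : ℝ) := by
          exact_mod_cast h4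
        linarith
      obtain ⟨g, hg1, hg2⟩ := hex
      refine ⟨fun i => univ.filter (fun j => (g j i : ℕ) = 0), fun i => ?_, fun L hL => ?_⟩
      · by_contra hcon
        push Not at hcon
        exact hg1 (Finset.mem_biUnion.2 ⟨i, Finset.mem_univ _, Finset.mem_filter.2 ⟨Finset.mem_univ _, hcon⟩⟩)
      · obtain ⟨L', hL', hLc⟩ := Finset.exists_subset_card_eq hL
        have h6 : ¬ (M < 2 ^ K * (univ.filter (fun j => ∀ i ∈ L', (g j i : ℕ) ≠ 0)).card) := by
          intro hcon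
          exact hg2 (Finset.mem_biUnion.2 ⟨L', Finset.mem_filter.2 ⟨Finset.mem_univ _, hLc⟩,
            Finset.mem_filter.2 ⟨Finset.mem_univ _, hcon⟩⟩)
        push Not at h6
        refine le_trans (Nat.mul_le_mul_left _ (Finset.card_le_card ?_)) h6
        intro j hj
        rw [Finset.mem_filter] at hj ⊢
        refine ⟨Finset.mem_univ _, fun i hi h7 => ?_⟩
        exact hj.2 i (hL' hi) (Finset.mem_filter.2 ⟨Finset.mem_univ _, h7⟩)

end H1WC
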