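import Mathlib

/-!
# Numerics
-/

set_option autoImplicit false

namespace H1WC

theorem num {k0 Δ c K : ℕ} (hk0 : 1 ≤ k0) (hΔ : 1 ≤ Δ) (hc : 1 ≤ c) :
    ∃ C, 1 ≤ C ∧ ∀ l k b : ℕ, 2 ≤ l → l ≤ k → C * k ≤ l * b → k ^ C ≤ 2 ^ b →
      ∃ t ν : ℕ, 1 ≤ t ∧ (t = 1 ∨ (K + 2) * t ≤ l) ∧ 2 ^ (K + 1) * (k + 1) ≤ Δ * ν ∧
        (2 * k) ^ t ≤ 2 ^ (Δ * ν) ∧ 3 * k0 * (Δ * ν) ≤ t * b ∧ c ≤ ν ∧ b * l ≤ C * (ν / c) ∧
        ∀ t', C * t' ≤ l * b → t' ≤ ν / c := by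
  obtain ⟨A, hA⟩ : ∃ A, A = 3 * k0 * Δ := ⟨_, rfl⟩
  obtain ⟨P, hP⟩ : ∃ P, P = K + 2 := ⟨_, rfl⟩
  have hA1 : 1 ≤ A := by
    rw [hA]
    exact Nat.succ_le_of_lt (by positivity)
  have hP1 : 1 ≤ P := by omega
  obtain ⟨Q, hQ⟩ : ∃ Q, Q = P * A := ⟨_, rfl⟩
  have hQ1 : 1 ≤ Q := by
    rw [hQ]
    exact Nat.succ_le_of_lt (by positivity)
  refine ⟨8 * Q * c + 4 * Q * 2 ^ (K + 2) + 12 * k0, by omega, ?_⟩
  set C := 8 * Q * c + 4 * Q * 2 ^ (K + 2) + 12 * k0 with hC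
  intro l k b hl hlk hCk hkC
  have hC1 : 8 * Q * c ≤ C := by omega
  have hC2 : 4 * Q * 2 ^ (K + 2) ≤ C := by omega
  have hC3 : 12 * k0 ≤ C := by omega
  have hk2 : 2 ≤ k := le_trans hl hlk
  obtain ⟨t, ht⟩ : ∃ t, t = max 1 (l / P) := ⟨_, rfl⟩
  have ht1 : 1 ≤ t := by rw [ht]; exact le_max_left _ _
  have htl : l ≤ 2 * P * t := by
    have h1 : l / P ≤ t := by rw [ht]; exact le_max_right _ _
    have h2 : l < P * (l / P + 1) := Nat.lt_mul_div_succ l hP1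
    have h3 : P * (l / P + 1) ≤ P * (t + 1) := Nat.mul_le_mul_left _ (by omega)
    have h4 : P * (t + 1) ≤ P * (2 * t) := Nat.mul_le_mul_left _ (by omega)
    have h5 : P * (2 * t) = 2 * P * t := by ring
    omega
  obtain ⟨D, hD⟩ : ∃ D, D = t * b := ⟨_, rfl⟩
  have hlb : l * b ≤ 2 * P * D := by
    have h1 := Nat.mul_le_mul_right b htl
    rw [hD]
    calc l * b ≤ 2 * P * t * b := h1
      _ = 2 * P * (t * b) := by ring
  have hDA : A ≤ D := by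
    by_contra hcon
    push Not at hcon
    have h1 : 2 * P * D < 2 * P * A := Nat.mul_lt_mul_of_pos_left hcon (by positivity)
    have h2 : 2 * P * A = 2 * Q := by rw [hQ]; ring
    have h3 : 8 * Q * c ≤ C * k := le_trans hC1 (Nat.le_mul_of_pos_right _ (by omega))
    have h4 : 8 * Q ≤ 8 * Q * c := Nat.le_mul_of_pos_right _ hc
    omega
  obtain ⟨ν, hν⟩ : ∃ ν, ν = D / A := ⟨_, rfl⟩
  have hν1 : 1 ≤ ν := by
    rw [hν]
    exact (Nat.one_le_div_iff hA1).2 hDA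
  have hAν : A * ν ≤ D := by
    rw [hν]
    exact Nat.mul_div_le D A
  have hDν : D ≤ 2 * A * ν := by
    have h1 : D < A * (ν + 1) := by
      rw [hν]
      exact Nat.lt_mul_div_succ D hA1
    have h2 : A * (ν + 1) ≤ A * (2 * ν) := Nat.mul_le_mul_left _ (by omega)
    have h3 : A * (2 * ν) = 2 * A * ν := by ring
    omega
  have hlbν : l * b ≤ 4 * Q * ν := by
    have h1 : 2 * P * D ≤ 2 * P * (2 * A * ν) := Nat.mul_le_mul_left _ hDν
    have h2 : 2 * P * (2 * A * ν) = 4 * Q * ν := by rw [hQ]; ring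
    omega
  have hcν : c ≤ ν := by
    by_contra hcon
    push Not at hcon
    have h1 : 4 * Q * ν < 4 * Q * c := Nat.mul_lt_mul_of_pos_left hcon (by positivity)
    have h3 : 8 * Q * c ≤ C * k := le_trans hC1 (Nat.le_mul_of_pos_right _ (by omega))
    have h4 : 4 * Q * c ≤ 8 * Q * c := Nat.mul_le_mul_right _ (by omega)
    omega
  have hνc : ν ≤ 2 * c * (ν / c) := by
    have h1 : ν < c * (ν / c + 1) := Nat.lt_mul_div_succ ν hc
    have h2 : 1 ≤ ν / c := (Nat.one_le_div_iff hc).2 hcν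
    have h3 : c * (ν / c + 1) ≤ c * (2 * (ν / c)) := Nat.mul_le_mul_left _ (by omega)
    have h4 : c * (2 * (ν / c)) = 2 * c * (ν / c) := by ring
    omega
  have hfin : l * b ≤ 8 * Q * c * (ν / c) := by
    have h1 : 4 * Q * ν ≤ 4 * Q * (2 * c * (ν / c)) := Nat.mul_le_mul_left _ hνc
    have h2 : 4 * Q * (2 * c * (ν / c)) = 8 * Q * c * (ν / c) := by ring
    omega
  refine ⟨t, ν, ht1, ?_, ?_, ?_, ?_, hcν, ?_, ?_⟩
  · rcases le_or_gt (l / P) 1 with h | h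
    · left
      rw [ht]
      exact max_eq_left h
    · right
      rw [ht, max_eq_right h.le, ← hP]
      exact Nat.mul_div_le l P
  · -- 2 ^ (K + 1) * (k + 1) ≤ Δ * ν
    have h1 : 4 * Q * (2 ^ (K + 2) * k) ≤ 4 * Q * ν := by
      have h2 : 4 * Q * 2 ^ (K + 2) * k ≤ C * k := Nat.mul_le_mul_right _ hC2
      have h3 : 4 * Q * (2 ^ (K + 2) * k) = 4 * Q * 2 ^ (K + 2) * k := by ring
      omega
    have h4 : 2 ^ (K + 2) * k ≤ ν := Nat.le_of_mul_le_mul_left h1 (by positivity)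
    have h5 : 2 ^ (K + 1) * (k + 1) ≤ 2 ^ (K + 2) * k := by
      rw [pow_succ 2 (K + 1), mul_assoc]
      exact Nat.mul_le_mul_left _ (by omega)
    have h6 : ν ≤ Δ * ν := Nat.le_mul_of_pos_left _ hΔ
    omega
  · -- (2 * k) ^ t ≤ 2 ^ (Δ * ν)
    have h1 : t * b ≤ 6 * k0 * (Δ * ν) := by
      have h2 : 2 * A * ν = 6 * k0 * (Δ * ν) := by rw [hA]; ring
      omega
    have h3 : (2 * k) ^ (6 * k0) ≤ 2 ^ b := by
      have h4 : 2 * k ≤ k ^ 2 := by nlinarith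
      calc (2 * k) ^ (6 * k0) ≤ (k ^ 2) ^ (6 * k0) := Nat.pow_le_pow_left h4 _
        _ = k ^ (12 * k0) := by
          rw [← pow_mul]
          congr 1
          ring
        _ ≤ k ^ C := Nat.pow_le_pow_right (by omega) hC3
        _ ≤ 2 ^ b := hkC
    have h5 : ((2 * k) ^ t) ^ (6 * k0) ≤ (2 ^ (Δ * ν)) ^ (6 * k0) := by
      calc ((2 * k) ^ t) ^ (6 * k0) = ((2 * k) ^ (6 * k0)) ^ t := by
            rw [← pow_mul, ← pow_mul]
            congr 1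
            ring
        _ ≤ (2 ^ b) ^ t := Nat.pow_le_pow_left h3 _
        _ = 2 ^ (t * b) := by
          rw [← pow_mul]
          congr 1
          ring
        _ ≤ 2 ^ (6 * k0 * (Δ * ν)) := Nat.pow_le_pow_right (by norm_num) h1
        _ = (2 ^ (Δ * ν)) ^ (6 * k0) := by
          rw [← pow_mul]
          congr 1
          ring
    exact (Nat.pow_le_pow_iff_left (by omega)).1 h5
  · -- 3 * k0 * (Δ * ν) ≤ t * b
    have h2 : A * ν = 3 * k0 * (Δ * ν) := by rw [hA]; ring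
    omega
  · calc b * l = l * b := by ring
      _ ≤ 8 * Q * c * (ν / c) := hfin
      _ ≤ C * (ν / c) := Nat.mul_le_mul_right _ hC1
  · intro t' ht'
    have h1 : C * t' ≤ C * (ν / c) := le_trans ht' (le_trans hfin (Nat.mul_le_mul_right _ hC1))
    exact Nat.le_of_mul_le_mul_left h1 (by
      have : 0 < 8 * Q * c := by positivity
      omega)

end H1WC
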