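import Pool.Agent.H1.WC.Gr
import Pool.Agent.H1.WC.Fals
import Pool.Agent.H1.WC.Sub
import Pool.Agent.H1.WC.Num
import Pool.Agent.H1.WC.Up

/-!
# The clique theorem from the theorem on random CNFs
-/

set_option autoImplicit false
open scoped Classical

namespace H1WC

open Finset

/-- The theorem on random CNFs, for clauses with `e + 2` literals and `2 ^ (e + 5) n` clauses: at most half of the CNFs
have a short refutation. -/
def Base (e f c : ℕ) : Prop := ∀ n, c ≤ n →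
  2 * (univ.filter (fun Φ : Fin (2 ^ (e + 2 + 3) * n) → PolyLines.KClause n (e + 2) =>
    ∃ N, N < 2 ^ (n / c) ∧ PolyLines.Refutes e (n / c) f Φ N)).card ≤
    Fintype.card (Fin (2 ^ (e + 2 + 3) * n) → PolyLines.KClause n (e + 2))

theorem Main_exist {e f c n : ℕ} (hc : 1 ≤ c) (hec : e + 2 ≤ c) (hB : Base e f c) (hn : c ≤ n) :
    ∃ Φ : Fin (2 ^ (e + 2 + 3) * n) → PolyLines.KClause n (e + 2),
      (∀ N, PolyLines.Refutes e (n / c) f Φ N → 2 ^ (n / c) ≤ N) ∧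
      ∀ x : PolyLines.Pt n, 2 ^ (e + 2 + 3) * n < 2 ^ (e + 2 + 2) * (univ.filter (fun j => ¬ (Φ j).Holds x)).card := by
  have h1 := hB n hn
  have h2 := few_false (n := n) (k := e + 2) (m := 2 ^ (e + 2 + 3) * n) (le_trans hc hn) le_rfl
  have hpos : 0 < Fintype.card (Fin (2 ^ (e + 2 + 3) * n) → PolyLines.KClause n (e + 2)) := by
    apply Fintype.card_pos_iff.2
    exact ⟨fun _ => ((Fin.castLEEmb (le_trans hec hn)), fun _ => 0)⟩
  by_contra hcon
  have h3 : (univ : Finset (Fin (2 ^ (e + 2 + 3) * n) → PolyLines.KClause n (e + 2))) ⊆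
      (univ.filter (fun Φ : Fin (2 ^ (e + 2 + 3) * n) → PolyLines.KClause n (e + 2) =>
        ∃ N, N < 2 ^ (n / c) ∧ PolyLines.Refutes e (n / c) f Φ N)) ∪
      (univ.filter (fun Φ : Fin (2 ^ (e + 2 + 3) * n) → PolyLines.KClause n (e + 2) =>
        ∃ x : PolyLines.Pt n, 2 ^ (e + 2 + 2) * (univ.filter (fun j => ¬ (Φ j).Holds x)).card ≤
          2 ^ (e + 2 + 3) * n)) := by
    intro Φ _
    rw [Finset.mem_union, Finset.mem_filter, Finset.mem_filter]
    by_contra hΦ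
    push Not at hΦ
    apply hcon
    refine ⟨Φ, fun N hN => ?_, fun x => ?_⟩
    · by_contra h4
      push Not at h4
      exact hΦ.1 (Finset.mem_univ _) N h4 hN
    · exact hΦ.2 (Finset.mem_univ _) x
  have h4 := le_trans (Finset.card_le_card h3) (Finset.card_union_le _ _)
  rw [Finset.card_univ] at h4
  omega

theorem Main_degmono {X : Type} [Fintype X] {d d' : ℕ} (h : d ≤ d') {g : CliqueLines.Pt X → ZMod 2}
    (hg : CliqueLines.DegLE d g) : CliqueLines.DegLE d' g := by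
  obtain ⟨a, ha⟩ := hg
  refine ⟨fun T => if T.card ≤ d then a T else 0, fun x => ?_⟩
  rw [ha]
  have h1 : (univ.filter (fun T : Finset X => T.card ≤ d)) ⊆ (univ.filter (fun T : Finset X => T.card ≤ d')) := by
    intro T hT
    rw [Finset.mem_filter] at hT ⊢
    exact ⟨hT.1, le_trans hT.2 h⟩
  rw [← Finset.sum_subset h1]
  · refine Finset.sum_congr rfl fun T hT => ?_
    have h2 : (fun T : Finset X => if T.card ≤ d then a T else 0) T = a T := if_pos (Finset.mem_filter.1 hT).2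
    rw [h2]
  · intro T _ hT
    have h2 : ¬ T.card ≤ d := by
      intro h3
      exact hT (Finset.mem_filter.2 ⟨Finset.mem_univ _, h3⟩)
    have h4 : (fun T : Finset X => if T.card ≤ d then a T else 0) T = 0 := if_neg h2
    rw [h4, zero_mul]

theorem Main_mono {k b e t t' f N : ℕ} {G : SimpleGraph (CliqueLines.Vertex k b)} (h : t ≤ t')
    (hr : CliqueLines.Refutes e t f G N) : CliqueLines.Refutes e t' f G N := by
  obtain ⟨l, hN, hlast, hstep⟩ := hr
  exact ⟨fun i => ⟨(l i).E, (l i).hE, (l i).p, Main_degmono h (l i).hp⟩, hN, hlast, hstep⟩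

theorem main {e f c : ℕ} (hc : 1 ≤ c) (hec : e + 2 ≤ c) (hB : Base e f c) :
    ∃ C, 1 ≤ C ∧ ∀ l k b : ℕ, 2 ≤ l → l ≤ k → C * k ≤ l * b → k ^ C ≤ 2 ^ b →
      ∃ G : SimpleGraph (CliqueLines.Vertex k b), (∀ v w, G.Adj v w → v.1 ≠ w.1) ∧ G.CliqueFree l ∧
        (∀ t N, C * t ≤ l * b → CliqueLines.Refutes e t f G N → (2 ^ b) ^ l ≤ N ^ C) ∧
        ∃ N, N ≤ 2 * (2 ^ b) ^ l ∧ CliqueLines.Refutes 1 0 2 G N := by
  obtain ⟨C, hC, hnum⟩ := num (k0 := e + 2) (Δ := 2 ^ (e + 2 + 3)) (c := c) (K := e + 2 + 2) (by omega)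
    (Nat.one_le_two_pow) hc
  refine ⟨C, hC, fun l k b hl hlk hCk hkC => ?_⟩
  obtain ⟨t, ν, ht1, htl, h1, h2, h3, hcν, hfin, ht'⟩ := hnum l k b hl hlk hCk hkC
  obtain ⟨Φ, hP1, hP2⟩ := Main_exist hc hec hB hcν
  obtain ⟨T, hT1, hT2⟩ := groups (K := e + 2 + 2) (k := k) (l := l) (M := 2 ^ (e + 2 + 3) * ν) (t := t)
    (by omega) ht1 htl h1 h2
  have hslot : ∀ i, (e + 2) * (T i).card ≤ b := by
    intro i
    have h4 := hT1 i
    have h5 : t * ((e + 2) * (T i).card) ≤ t * b := by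
      calc t * ((e + 2) * (T i).card) = (e + 2) * (t * (T i).card) := by ring
        _ ≤ (e + 2) * (3 * (2 ^ (e + 2 + 3) * ν)) := Nat.mul_le_mul_left _ h4
        _ = 3 * (e + 2) * (2 ^ (e + 2 + 3) * ν) := by ring
        _ ≤ t * b := h3
    exact Nat.le_of_mul_le_mul_left h5 (by omega)
  obtain ⟨τ, hτ⟩ := slots (Φ := Φ) hslot
  have hm : 0 < 2 ^ (e + 2 + 3) * ν := by
    have : 0 < ν := by omega
    positivity
  have hcf : (gr Φ T τ).CliqueFree l := no_clique hτ hl hP2 hT2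
  refine ⟨gr Φ T τ, fun v w h => h.1, hcf, ?_, upper hlk _ hcf⟩
  intro t0 N ht0 hr
  have h6 := refutes_sub hτ hm (Main_mono (ht' t0 ht0) hr)
  have h7 := hP1 N h6
  calc (2 ^ b) ^ l = 2 ^ (b * l) := (pow_mul 2 b l).symm
    _ ≤ 2 ^ (C * (ν / c)) := Nat.pow_le_pow_right (by norm_num) hfin
    _ = (2 ^ (ν / c)) ^ C := by rw [← pow_mul, mul_comm]
    _ ≤ N ^ C := Nat.pow_le_pow_left h7 C

end H1WC
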